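import Pool.Agent.H261R3.LN.UStmts

/-! Task U3: the universal covering is simply connected. -/

set_option autoImplicit false

open scoped NNReal ENNReal unitInterval

namespace Pool.Agent.H261R3.LN

namespace U3H474

variable {S : Type} [MetricSpace S]

/-- the path of a continuous map of the unit interval -/
def pth {X : Type} [TopologicalSpace X] (f : C(I, X)) : Path (f 0) (f 1) := ⟨f, rfl, rfl⟩

/-- a point of the universal covering -/
def uc {p : S} (y : S) (c : Path.Homotopic.Quotient p y) : UC p := ⟨y, c⟩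

/-- the lift of the path -/
noncomputable def lft {p : S} (f : C(I, S)) (c : Path.Homotopic.Quotient p (f 0)) (t : I) :
    UC p :=
  uc (f t) (c.trans (Path.Homotopic.Quotient.mk ((pth f).subpath 0 t)))

theorem lft_zero {p : S} (f : C(I, S)) (c : Path.Homotopic.Quotient p (f 0)) :
    lft f c 0 = uc (f 0) c := by
  unfold lft
  congr 1
  rw [Path.subpath_self]
  exact q_trans_refl c

theorem lft_one {p : S} (f : C(I, S)) (c : Path.Homotopic.Quotient p (f 0)) :
    lft f c 1 = uc (f 1) (c.trans (Path.Homotopic.Quotient.mk (pth f))) := by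
  unfold lft
  congr 1
  rw [Path.subpath_zero_one]
  rfl

theorem lft_cont {ε : ℝ} (L : LocSeg S ε) (hε : 0 < ε) {p : S} (f : C(I, S))
    (c : Path.Homotopic.Quotient p (f 0)) :
    letI := ucMetric L hε p
    Continuous (lft f c) := by
  letI := ucMetric L hε p
  rw [Metric.continuous_iff]
  intro t₀ η hη
  obtain ⟨δ, hδ, h⟩ := Metric.continuous_iff.1 f.continuous t₀ (min η (ε / 4))
    (lt_min hη (by positivity))
  refine ⟨δ, hδ, fun t ht => ?_⟩
  have h1 := h t ht
  have hsub : ∀ u, dist (f t₀) ((pth f).subpath t₀ t u) < ε := by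
    intro u
    have hmem : (pth f).subpath t₀ t u ∈ Set.range ((pth f).subpath t₀ t) := ⟨u, rfl⟩
    rw [Path.range_subpath] at hmem
    obtain ⟨s, hs, hs'⟩ := hmem
    rw [← hs']
    have hd : dist s t₀ < δ := by
      refine lt_of_le_of_lt ?_ ht
      rw [Subtype.dist_eq, Subtype.dist_eq, Real.dist_eq, Real.dist_eq]
      rcases Set.mem_uIcc.1 hs with ⟨ha, hb⟩ | ⟨ha, hb⟩
      · have ha' : (t₀ : ℝ) ≤ s := ha
        have hb' : (s : ℝ) ≤ t := hb
        rw [abs_of_nonneg (by linarith), abs_of_nonneg (by linarith)]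
        linarith
      · have ha' : (t : ℝ) ≤ s := ha
        have hb' : (s : ℝ) ≤ t₀ := hb
        rw [abs_of_nonpos (by linarith), abs_of_nonpos (by linarith)]
        linarith
    have h2 := h s hd
    rw [dist_comm]
    have h3 : dist ((pth f) s) (f t₀) < ε / 4 := h2.trans_le (min_le_right _ _)
    linarith
  have hseg := L.small _ _ ((pth f).subpath t₀ t) hsub
  have hcls : (lft f c t₀).2.trans (L.seg (lft f c t₀).1 (lft f c t).1) = (lft f c t).2 := by
    change (c.trans (Path.Homotopic.Quotient.mk ((pth f).subpath 0 t₀))).trans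
      (L.seg (f t₀) (f t)) = c.trans (Path.Homotopic.Quotient.mk ((pth f).subpath 0 t))
    have h4 : Path.Homotopic.Quotient.mk ((pth f).subpath t₀ t) = L.seg (f t₀) (f t) := hseg
    rw [← h4, q_trans_assoc]
    congr 1
    exact Path.Homotopic.Quotient.eq.2 ⟨Path.Homotopy.subpathTransSubpath (pth f) 0 t₀ t⟩
  rw [dist_comm]
  have hdist : ucDist L (lft f c t₀) (lft f c t) = dist (f t₀) (f t) := by
    unfold ucDist
    rw [if_pos]
    · rfl
    · refine ⟨?_, hcls⟩
      have h5 : dist (f t₀) (f t) < ε / 4 := by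
        rw [dist_comm]; exact h1.trans_le (min_le_right _ _)
      exact h5
  change ucDist L (lft f c t₀) (lft f c t) < η
  rw [hdist, dist_comm]
  exact h1.trans_le (min_le_left _ _)

end U3H474

open U3H474

theorem U3H474.taskU3 : TaskU1 → TaskU3 := by
  intro hU1 S _ _ _ hS ε hε L p
  letI := ucMetric L hε p
  have hcov : IsCoveringMap (ucProj p) := (hU1 S hS ε hε L p).covering
  have hclass : ∀ g : C(I, UC p), (g 0).2.trans
      (Path.Homotopic.Quotient.mk ((pth g).map hcov.continuous)) = (g 1).2 := by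
    intro g
    let f : C(I, S) := ⟨fun t => (g t).1, hcov.continuous.comp g.continuous⟩
    have hlift : lft f (g 0).2 = g := by
      apply hcov.eq_of_comp_eq (lft_cont L hε f (g 0).2) g.continuous _ 0
      · exact lft_zero f (g 0).2
      · rfl
    have h1 : lft f (g 0).2 1 = g 1 := congrFun hlift 1
    rw [lft_one] at h1
    have h2 := (Sigma.mk.inj_iff.1 h1).2
    exact eq_of_heq h2
  have hjoin : ∀ (a : UC p), Joined (uc p (Path.Homotopic.Quotient.refl p)) a := by
    rintro ⟨y, c⟩
    obtain ⟨γ, rfl⟩ := Path.Homotopic.Quotient.mk_surjective c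
    have key : ∀ (x : S) (γ : Path x y) (c : Path.Homotopic.Quotient p x),
        Joined (uc x c) (uc y (c.trans (Path.Homotopic.Quotient.mk γ))) := by
      intro x γ c
      obtain ⟨f, h0, h1⟩ := γ
      subst h0
      subst h1
      refine ⟨⟨⟨lft f c, lft_cont L hε f c⟩, lft_zero f c, lft_one f c⟩⟩
    have h := key p γ (Path.Homotopic.Quotient.refl p)
    have h2 : (Path.Homotopic.Quotient.refl p).trans (Path.Homotopic.Quotient.mk γ) =
        Path.Homotopic.Quotient.mk γ := by
      rw [← Path.Homotopic.Quotient.mk_refl, ← Path.Homotopic.Quotient.mk_trans]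
      exact Path.Homotopic.Quotient.eq.2 ⟨Path.Homotopy.reflTrans γ⟩
    rw [h2] at h
    exact h
  rw [simply_connected_iff_paths_homotopic']
  refine ⟨⟨⟨uc p (Path.Homotopic.Quotient.refl p)⟩, fun a b => (hjoin a).symm.trans (hjoin b)⟩, ?_⟩
  intro a b α β
  rw [← Path.Homotopic.Quotient.eq]
  apply hcov.injective_path_homotopic_map a b
  dsimp only
  rw [← Path.Homotopic.Quotient.mk_map, ← Path.Homotopic.Quotient.mk_map]
  have key : ∀ α : Path a b, a.2.trans
      (Path.Homotopic.Quotient.mk (α.map hcov.continuous)) = b.2 := by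
    intro α
    obtain ⟨g, h0, h1⟩ := α
    subst h0
    subst h1
    exact hclass g
  have h1 := key α
  have h2 := key β
  have h3 := h1.trans h2.symm
  -- cancel on the left
  have hcancel : ∀ {x y z : S} (c : Path.Homotopic.Quotient x y)
      (P Q : Path.Homotopic.Quotient y z), c.trans P = c.trans Q → P = Q := by
    intro x y z c P Q h
    obtain ⟨γ, rfl⟩ := Path.Homotopic.Quotient.mk_surjective c
    obtain ⟨P, rfl⟩ := Path.Homotopic.Quotient.mk_surjective P
    obtain ⟨Q, rfl⟩ := Path.Homotopic.Quotient.mk_surjective Q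
    have h' : ∀ P : Path y z, (Path.Homotopic.Quotient.mk γ.symm).trans
        ((Path.Homotopic.Quotient.mk γ).trans (Path.Homotopic.Quotient.mk P)) =
        Path.Homotopic.Quotient.mk P := by
      intro P
      rw [← q_trans_assoc, ← Path.Homotopic.Quotient.mk_trans,
        Path.Homotopic.Quotient.eq.2 ⟨(Path.Homotopy.reflSymmTrans γ).symm⟩,
        ← Path.Homotopic.Quotient.mk_trans]
      exact Path.Homotopic.Quotient.eq.2 ⟨Path.Homotopy.reflTrans P⟩
    rw [← h' P, ← h' Q, h]
  exact hcancel _ _ _ h3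

end Pool.Agent.H261R3.LN
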