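import Pool.Agent.H261R3.LN.SStmts
import Pool.Agent.H808R3.LN.Core

/-! Task StageS2 of project LM (MP_e25190_gt), by helper474, after helper808. -/

set_option autoImplicit false

namespace Pool.Agent.H474R3.LN

open Pool.Agent.H261R3.LH (Lip1 clip clip_nonneg)
open Pool.Agent.H261R3.LN
open Pool.Agent.H744R3.LH (clip_le_one clip_of_mem abs_clip_sub lip_mono lip_nonneg lip_of_cells)
open Pool.Agent.H808R3.LN (sc dist_sc)

section
variable {m : ℕ}

/-- change of scale of the far condition -/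
lemma far_iff (j k : ℤ) (c : ℝ) (x : Fin m → ℝ) :
    Far (j + k) (2 ^ j * c) (fun i => 2 ^ j * x i) ↔ Far k c x := by
  have h2 : (0 : ℝ) < 2 ^ j := by positivity
  unfold Far
  refine forall_congr' fun i => forall_congr' fun n => ?_
  have e : 2 ^ j * x i - 2 ^ (j + k) * ((n : ℝ) + 1 / 6) =
      2 ^ j * (x i - 2 ^ k * ((n : ℝ) + 1 / 6)) := by
    rw [zpow_add₀ (by norm_num)]; ring
  rw [e, abs_mul, abs_of_pos h2]
  exact ⟨fun h => le_of_mul_le_mul_left h h2, fun h => mul_le_mul_of_nonneg_left h h2.le⟩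

lemma unsc (j : ℤ) (x : Fin m → ℝ) : (fun i => (2 : ℝ) ^ j * sc j x i) = x := by
  funext i
  have h2 : (2 : ℝ) ^ j ≠ 0 := by positivity
  show 2 ^ j * (x i / 2 ^ j) = x i
  field_simp

lemma far0 {j : ℤ} {x : Fin m → ℝ} (h : Far j (2 ^ j / 100) (fun i => (2 : ℝ) ^ j * x i)) :
    Far 0 (1 / 100) x := by
  rw [← far_iff j 0 (1 / 100) x, add_zero]
  have e : (2 : ℝ) ^ j * (1 / 100) = 2 ^ j / 100 := by ring
  rw [e]; exact h

lemma far0' {j : ℤ} {x : Fin m → ℝ} (h : Far 0 (1 / 100) x) :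
    Far j (2 ^ j / 100) (fun i => (2 : ℝ) ^ j * x i) := by
  rw [← far_iff j 0 (1 / 100) x, add_zero] at h
  have e : (2 : ℝ) ^ j * (1 / 100) = 2 ^ j / 100 := by ring
  rw [e] at h; exact h

lemma far1 {j : ℤ} {x : Fin m → ℝ}
    (h : Far (j + 1) (2 ^ (j + 1) / 100) (fun i => (2 : ℝ) ^ j * x i)) : Far 1 (1 / 50) x := by
  rw [← far_iff j 1 (1 / 50) x]
  have e : (2 : ℝ) ^ j * (1 / 50) = 2 ^ (j + 1) / 100 := by
    rw [zpow_add₀ (by norm_num), zpow_one]; ring
  rw [e]; exact h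

lemma far1' {j : ℤ} {x : Fin m → ℝ} (h : Far 1 (1 / 50) x) :
    Far (j + 1) (2 ^ (j + 1) / 100) (fun i => (2 : ℝ) ^ j * x i) := by
  rw [← far_iff j 1 (1 / 50) x] at h
  have e : (2 : ℝ) ^ j * (1 / 50) = 2 ^ (j + 1) / 100 := by
    rw [zpow_add₀ (by norm_num), zpow_one]; ring
  rw [e] at h; exact h

end

theorem taskStageS2 : TaskStageS2 := by
  intro hSlab S _ p m hN C
  obtain ⟨C0, hC0, hsl⟩ := hSlab S p m hN C
  refine ⟨2 * C0, by positivity, fun F hF hFp => ?_⟩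
  obtain ⟨hF1, hF2⟩ := hF
  have hC : 0 ≤ C := lip_nonneg (hF2 (fun _ => 0))
  have c0 : clip 0 = 0 := clip_of_mem le_rfl zero_le_one
  have c1 : clip 1 = 1 := clip_of_mem zero_le_one le_rfl
  have ha : ∀ (j : ℤ) (h : ℝ), LipN C (fun u : Fin m → ℝ => F (fun i => 2 ^ j * u i) (j + clip h)) := by
    intro j h u v
    have h2 : (0 : ℝ) < 2 ^ j := by positivity
    refine (hF1 (j + clip h) _ _).trans ?_
    rw [mul_assoc]
    refine mul_le_mul_of_nonneg_left ?_ hC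
    have h3 : dist (fun i => 2 ^ j * u i) (fun i => 2 ^ j * v i) ≤ 2 ^ j * dist u v := by
      rw [dist_pi_le_iff (by positivity)]
      intro i
      rw [Real.dist_eq, ← mul_sub, abs_mul, abs_of_pos h2, ← Real.dist_eq]
      exact mul_le_mul_of_nonneg_left (dist_le_pi_dist u v i) h2.le
    have h4 : (2 : ℝ) ^ (-((j : ℝ) + clip h)) ≤ ((2 : ℝ) ^ j)⁻¹ := by
      rw [← Real.rpow_intCast, ← Real.rpow_neg (by norm_num)]
      refine Real.rpow_le_rpow_of_exponent_le (by norm_num) ?_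
      have := clip_nonneg h
      linarith
    calc (2 : ℝ) ^ (-((j : ℝ) + clip h)) * dist (fun i => 2 ^ j * u i) (fun i => 2 ^ j * v i)
        ≤ ((2 : ℝ) ^ j)⁻¹ * (2 ^ j * dist u v) := mul_le_mul h4 h3 dist_nonneg (by positivity)
      _ = dist u v := by rw [← mul_assoc, inv_mul_cancel₀ h2.ne', one_mul]
  have hb : ∀ (j : ℤ) (u : Fin m → ℝ), Lip1 C (fun h : ℝ => F (fun i => 2 ^ j * u i) (j + clip h)) := by
    intro j u a b
    refine (hF2 (fun i => 2 ^ j * u i) _ _).trans ?_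
    refine mul_le_mul_of_nonneg_left ?_ hC
    have e : (j : ℝ) + clip a - (j + clip b) = clip a - clip b := by ring
    rw [e]
    exact abs_clip_sub a b
  have hc : ∀ (j : ℤ) (u : Fin m → ℝ), Far 0 (1 / 100) u →
      F (fun i => 2 ^ j * u i) (j + clip 0) = p := by
    intro j u hu
    rw [c0, add_zero]
    exact hFp j _ (far0' hu)
  have hd : ∀ (j : ℤ) (u : Fin m → ℝ), Far 1 (1 / 50) u →
      F (fun i => 2 ^ j * u i) (j + clip 1) = p := by
    intro j u hu
    rw [c1]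
    have := hFp (j + 1) _ (far1' hu)
    push_cast at this
    exact this
  choose g hg1 hg2 hg3 hg4 hg5 hg6 using fun j : ℤ =>
    hsl (fun u h => F (fun i => 2 ^ j * u i) (j + clip h)) (ha j) (hb j) (hc j) (hd j)
  -- the homotopy
  set H : ℝ → (Fin m → ℝ) → ℝ → S := fun t x η => g ⌊η⌋ t (sc ⌊η⌋ x) (Int.fract η) with hH
  have hint : ∀ (j : ℤ) t x, g j t (sc j x) 0 = F x j := by
    intro j t x
    rw [(hg5 j t (sc j x)).1]
    simp only [c0, add_zero, unsc]
  have hint' : ∀ (j : ℤ) t x, g j t (sc j x) 1 = F x (j + 1) := by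
    intro j t x
    rw [(hg5 j t (sc j x)).2]
    simp only [c1, unsc]
  have hcell : ∀ t x (k : ℤ) (η : ℝ), (k : ℝ) ≤ η → η ≤ k + 1 →
      H t x η = g k t (sc k x) (η - k) := by
    intro t x k η h0 h1
    rcases lt_or_eq_of_le h1 with h | h
    · have hf : ⌊η⌋ = k := Int.floor_eq_iff.2 ⟨h0, h⟩
      show g ⌊η⌋ t (sc ⌊η⌋ x) (Int.fract η) = _
      unfold Int.fract
      rw [hf]
    · have hf : ⌊η⌋ = k + 1 := by
        rw [Int.floor_eq_iff]; push_cast; constructor <;> linarith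
      have e1 : Int.fract η = 0 := by
        unfold Int.fract; rw [hf, h]; push_cast; ring
      show g ⌊η⌋ t (sc ⌊η⌋ x) (Int.fract η) = _
      rw [e1, hf, hint, show η - k = 1 by linarith, hint']
      push_cast
      rfl
  have hfl : ∀ η : ℝ, (2 : ℝ) ^ (-(⌊η⌋ : ℝ)) ≤ 2 * (2 : ℝ) ^ (-η) := by
    intro η
    have e : 2 * (2 : ℝ) ^ (-η) = (2 : ℝ) ^ (1 - η) := by
      rw [sub_eq_add_neg, Real.rpow_add (by norm_num), Real.rpow_one]
    rw [e]
    refine Real.rpow_le_rpow_of_exponent_le (by norm_num) ?_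
    have := Int.lt_floor_add_one η
    linarith
  refine ⟨H, fun t => ⟨fun η x x' => ?_, fun x => ?_⟩, fun x η => ?_, fun x η => ?_, ?_, ?_⟩
  · refine (hg1 ⌊η⌋ t (Int.fract η) _ _).trans ?_
    refine (mul_le_mul_of_nonneg_left (dist_sc ⌊η⌋ x x') hC0).trans ?_
    rw [← mul_assoc]
    refine mul_le_mul_of_nonneg_right ?_ dist_nonneg
    calc C0 * (2 : ℝ) ^ (-(⌊η⌋ : ℝ)) ≤ C0 * (2 * (2 : ℝ) ^ (-η)) :=
          mul_le_mul_of_nonneg_left (hfl η) hC0
      _ = 2 * C0 * (2 : ℝ) ^ (-η) := by ring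
  · refine lip_mono ?_ (by linarith : C0 ≤ 2 * C0)
    refine lip_of_cells fun k a b ha hab hb => ?_
    show dist (H t x a) (H t x b) ≤ _
    rw [hcell t x k a ha (by linarith), hcell t x k b (by linarith) hb]
    refine (hg2 k t (sc k x) _ _).trans (le_of_eq ?_)
    rw [show a - (k : ℝ) - (b - k) = -(b - a) by ring, abs_neg, abs_of_nonneg (by linarith)]
  · exact lip_mono (hg3 ⌊η⌋ (sc ⌊η⌋ x) (Int.fract η)) (by linarith)
  · show g ⌊η⌋ 0 (sc ⌊η⌋ x) (Int.fract η) = F x η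
    rw [hg4 ⌊η⌋ _ _ (Int.fract_nonneg η) (Int.fract_lt_one η).le]
    simp only [unsc]
    rw [clip_of_mem (Int.fract_nonneg η) (Int.fract_lt_one η).le, Int.floor_add_fract]
  · intro j x hx
    rw [hcell 1 x j j le_rfl (by linarith), sub_self, hint]
    exact hFp j x hx
  · intro j x η h0 h1 hx hx'
    rw [hcell 1 x j η h0 h1]
    refine hg6 j _ _ (by linarith) (by linarith) (far0 (j := j) ?_) (far1 (j := j) ?_)
    · rw [unsc]; exact hx
    · rw [unsc]; exact hx'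

end Pool.Agent.H474R3.LN
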