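import Pool.Agent.H261R3.LN.SStmts
import Pool.Agent.H744R3.LH.StageAB

/-! Variation bound of task Sweep of project LM (MP_e25190_gt), by helper474. -/

set_option autoImplicit false

open scoped NNReal ENNReal

namespace Pool.Agent.H474R3.LN.SwVar

open Pool.Agent.H261R3.LH (Lip1 clip clip_nonneg)
open Pool.Agent.H744R3.LH (clip_le_one clip_of_mem abs_clip_sub)

section
variable {S : Type} [MetricSpace S]

theorem var_le_of_control (k : ℝ → S) (Φ : ℝ → ℝ) (V : ℝ)
    (h : ∀ a b, a ≤ b → dist (k a) (k b) ≤ Φ b - Φ a) (h0 : ∀ a, 0 ≤ Φ a) (hV : ∀ a, Φ a ≤ V) :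
    eVariationOn k Set.univ ≤ ENNReal.ofReal V := by
  have hm : ∀ a b, a ≤ b → Φ a ≤ Φ b := fun a b hab => by
    have := h a b hab
    have := dist_nonneg (x := k a) (y := k b)
    linarith
  unfold eVariationOn
  refine iSup_le ?_
  rintro ⟨n, ⟨u, hu, -⟩⟩
  show ∑ i ∈ Finset.range n, edist (k (u (i + 1))) (k (u i)) ≤ _
  calc ∑ i ∈ Finset.range n, edist (k (u (i + 1))) (k (u i))
      ≤ ∑ i ∈ Finset.range n, ENNReal.ofReal (Φ (u (i + 1)) - Φ (u i)) := by
        refine Finset.sum_le_sum fun i _ => ?_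
        rw [edist_dist, dist_comm]
        exact ENNReal.ofReal_le_ofReal (h _ _ (hu (Nat.le_succ i)))
    _ = ENNReal.ofReal (∑ i ∈ Finset.range n, (Φ (u (i + 1)) - Φ (u i))) := by
        rw [ENNReal.ofReal_sum_of_nonneg]
        intro i _
        have := hm _ _ (hu (Nat.le_succ i))
        linarith
    _ ≤ ENNReal.ofReal V := by
        refine ENNReal.ofReal_le_ofReal ?_
        rw [Finset.sum_range_sub (fun i => Φ (u i))]
        have h1 := h0 (u 0)
        have h2 := hV (u n)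
        linarith

end

theorem clip_mono {a b : ℝ} (h : a ≤ b) : clip a ≤ clip b := by
  unfold clip
  exact max_le_max le_rfl (min_le_min le_rfl h)

theorem odd_gap (n n' : ℤ) (r : ℕ) (hr : 1 ≤ r) :
    (1 : ℝ) / 6 ≤ |((n : ℝ) + 1 / 6) - 2 ^ r * ((n' : ℝ) + 1 / 6)| := by
  have hodd : Odd ((6 * n + 1) - 2 ^ r * (6 * n' + 1) : ℤ) := by
    have h1 : Odd (6 * n + 1 : ℤ) := ⟨3 * n, by ring⟩
    have h2 : Even ((2 : ℤ) ^ r * (6 * n' + 1)) := by
      obtain ⟨s, rfl⟩ : ∃ s, r = s + 1 := ⟨r - 1, by omega⟩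
      exact ⟨2 ^ s * (6 * n' + 1), by ring⟩
    exact h1.sub_even h2
  have hne : ((6 * n + 1) - 2 ^ r * (6 * n' + 1) : ℤ) ≠ 0 := by
    intro h
    rw [h] at hodd
    exact absurd hodd (by decide)
  have h1 : (1 : ℤ) ≤ |(6 * n + 1) - 2 ^ r * (6 * n' + 1)| := Int.one_le_abs hne
  have h2 : (1 : ℝ) ≤ |(6 * (n : ℝ) + 1) - 2 ^ r * (6 * (n' : ℝ) + 1)| := by exact_mod_cast h1
  have e : ((n : ℝ) + 1 / 6) - 2 ^ r * ((n' : ℝ) + 1 / 6) =
      ((6 * (n : ℝ) + 1) - 2 ^ r * (6 * (n' : ℝ) + 1)) / 6 := by ring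
  rw [e, abs_div, abs_of_pos (by norm_num : (0 : ℝ) < 6)]
  linarith

/-- bad levels -/
def Bd (η t : ℝ) (l : ℤ) : Prop :=
  η ≤ l ∧ ∃ n : ℤ, max 1 ((2 : ℝ) ^ ((l : ℝ) - 1 - η)) * |t - 2 ^ l * (n + 1 / 6)| < 2 ^ l / 100

theorem bd_close {η t : ℝ} {l : ℤ} (h : Bd η t l) :
    ∃ n : ℤ, |t - 2 ^ l * ((n : ℝ) + 1 / 6)| < (2 : ℝ) ^ η / 50 := by
  obtain ⟨_, n, hn⟩ := h
  refine ⟨n, ?_⟩
  have h2 : (0 : ℝ) < (2 : ℝ) ^ ((l : ℝ) - 1 - η) := by positivity
  have h3 : (2 : ℝ) ^ ((l : ℝ) - 1 - η) * |t - 2 ^ l * ((n : ℝ) + 1 / 6)| < 2 ^ l / 100 :=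
    lt_of_le_of_lt (mul_le_mul_of_nonneg_right (le_max_right _ _) (abs_nonneg _)) hn
  have e : (2 : ℝ) ^ l / 100 = (2 : ℝ) ^ ((l : ℝ) - 1 - η) * ((2 : ℝ) ^ η / 50) := by
    have h5 : (2 : ℝ) ^ ((l : ℝ) - 1 - η) * (2 : ℝ) ^ η = (2 : ℝ) ^ l / 2 := by
      rw [← Real.rpow_add (by norm_num), show (l : ℝ) - 1 - η + η = l - 1 by ring,
        Real.rpow_sub_one (by norm_num), Real.rpow_intCast]
    linear_combination (-1 / 50 : ℝ) * h5
  rw [e] at h3
  exact lt_of_mul_lt_mul_left h3 h2.le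

theorem bd_unique {η t : ℝ} {l l' : ℤ} (h : Bd η t l) (h' : Bd η t l') : l = l' := by
  by_contra hne
  wlog hlt : l < l' generalizing l l' with H
  · exact H h' h (Ne.symm hne) (lt_of_le_of_ne (not_lt.mp hlt) (Ne.symm hne))
  obtain ⟨n, hn⟩ := bd_close h
  obtain ⟨n', hn'⟩ := bd_close h'
  obtain ⟨r, hr⟩ : ∃ r : ℕ, l' = l + r := ⟨(l' - l).toNat, by omega⟩
  have hr1 : 1 ≤ r := by omega
  have hg := odd_gap n n' r hr1
  have h2l : (0 : ℝ) < 2 ^ l := by positivity
  have e : (2 : ℝ) ^ l * ((n : ℝ) + 1 / 6) - 2 ^ l' * ((n' : ℝ) + 1 / 6) =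
      2 ^ l * (((n : ℝ) + 1 / 6) - 2 ^ r * ((n' : ℝ) + 1 / 6)) := by
    rw [hr, zpow_add₀ (by norm_num), zpow_natCast]; ring
  have h6 : (2 : ℝ) ^ l * (1 / 6) ≤
      |2 ^ l * ((n : ℝ) + 1 / 6) - 2 ^ l' * ((n' : ℝ) + 1 / 6)| := by
    rw [e, abs_mul, abs_of_pos h2l]
    exact mul_le_mul_of_nonneg_left hg h2l.le
  have h7 : |2 ^ l * ((n : ℝ) + 1 / 6) - 2 ^ l' * ((n' : ℝ) + 1 / 6)| ≤
      |t - 2 ^ l * ((n : ℝ) + 1 / 6)| + |t - 2 ^ l' * ((n' : ℝ) + 1 / 6)| := by
    have := abs_sub_le (2 ^ l * ((n : ℝ) + 1 / 6)) t (2 ^ l' * ((n' : ℝ) + 1 / 6))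
    rw [abs_sub_comm (2 ^ l * ((n : ℝ) + 1 / 6)) t] at this
    exact this
  have h8 : (2 : ℝ) ^ η ≤ 2 ^ l := by
    rw [← Real.rpow_intCast]
    exact Real.rpow_le_rpow_of_exponent_le (by norm_num) h.1
  have h9 : (0 : ℝ) < (2 : ℝ) ^ η := by positivity
  linarith

section
variable {S : Type} [MetricSpace S]

theorem var {m : ℕ} {C : ℝ} (hC : 0 ≤ C) (p : S) (k : ℝ → S) (hk : Lip1 C k) (η : ℝ)
    (x : Fin m → ℝ) (y0 : S) (h0 : ∀ L, L ≤ η → k L = y0)
    (hval : ∀ (j : ℤ) (L : ℝ), (j : ℝ) ≤ L → L ≤ j + 1 → η ≤ j →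
      (∀ i (l : ℤ), (l = j ∨ l = j + 1) → ∀ n : ℤ,
        2 ^ l / 100 ≤ max 1 ((2 : ℝ) ^ ((l : ℝ) - 1 - η)) * |x i - 2 ^ l * (n + 1 / 6)|) →
      k L = p) :
    eVariationOn k Set.univ ≤ ENNReal.ofReal ((2 * m + 1) * C) := by
  classical
  obtain ⟨β, hβ⟩ : ∃ β : Fin m → ℝ, ∀ i l, Bd η (x i) l → β i = l := by
    refine ⟨fun i => if h : ∃ l, Bd η (x i) l then ((Classical.choose h : ℤ) : ℝ) else 0, ?_⟩
    intro i l h
    have hex : ∃ l, Bd η (x i) l := ⟨l, h⟩
    show (if h : ∃ l, Bd η (x i) l then ((Classical.choose h : ℤ) : ℝ) else 0) = l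
    rw [dif_pos hex, bd_unique (Classical.choose_spec hex) h]
  set T : ℝ → Fin m → ℝ := fun L i => clip (L - (β i - 1)) + clip (L - β i) with hT
  set Φ : ℝ → ℝ := fun L => C * (clip (L - η) + ∑ i, T L i) with hΦ
  have hTm : ∀ a b i, a ≤ b → T a i ≤ T b i := by
    intro a b i hab
    have h1 := clip_mono (show a - (β i - 1) ≤ b - (β i - 1) by linarith)
    have h2 := clip_mono (show a - β i ≤ b - β i by linarith)
    show clip (a - (β i - 1)) + clip (a - β i) ≤ clip (b - (β i - 1)) + clip (b - β i)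
    linarith
  have hΦd : ∀ a b, Φ b - Φ a = C * ((clip (b - η) - clip (a - η)) + ∑ i, (T b i - T a i)) := by
    intro a b
    show C * (clip (b - η) + ∑ i, T b i) - C * (clip (a - η) + ∑ i, T a i) = _
    rw [Finset.sum_sub_distrib]; ring
  have hΦm : ∀ a b, a ≤ b → 0 ≤ Φ b - Φ a := by
    intro a b hab
    rw [hΦd]
    refine mul_nonneg hC (add_nonneg ?_ (Finset.sum_nonneg fun i _ => ?_))
    · have := clip_mono (show a - η ≤ b - η by linarith)
      linarith
    · have := hTm a b i hab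
      linarith
  -- transitivity of the control
  have htr : ∀ a b c, dist (k a) (k b) ≤ Φ b - Φ a → dist (k b) (k c) ≤ Φ c - Φ b →
      dist (k a) (k c) ≤ Φ c - Φ a := by
    intro a b c h1 h2
    have := dist_triangle (k a) (k b) (k c)
    linarith
  have hlip : ∀ a b, a ≤ b → dist (k a) (k b) ≤ C * (b - a) := by
    intro a b hab
    refine (hk a b).trans (le_of_eq ?_)
    rw [abs_sub_comm, abs_of_nonneg (by linarith)]
  -- the cell next to `η`
  have hcell0 : ∀ a b, η ≤ a → a ≤ b → b ≤ η + 1 → dist (k a) (k b) ≤ Φ b - Φ a := by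
    intro a b ha hab hb
    refine (hlip a b hab).trans ?_
    rw [hΦd]
    refine mul_le_mul_of_nonneg_left ?_ hC
    rw [clip_of_mem (show 0 ≤ b - η by linarith) (by linarith),
      clip_of_mem (show 0 ≤ a - η by linarith) (by linarith)]
    have : 0 ≤ ∑ i, (T b i - T a i) := Finset.sum_nonneg fun i _ => by
      have := hTm a b i hab
      linarith
    linarith
  -- integer cells
  have hcell : ∀ (j : ℤ), η ≤ j → ∀ a b, (j : ℝ) ≤ a → a ≤ b → b ≤ j + 1 →
      dist (k a) (k b) ≤ Φ b - Φ a := by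
    intro j hj a b ha hab hb
    by_cases hall : ∀ i (l : ℤ), (l = j ∨ l = j + 1) → ∀ n : ℤ,
        2 ^ l / 100 ≤ max 1 ((2 : ℝ) ^ ((l : ℝ) - 1 - η)) * |x i - 2 ^ l * (n + 1 / 6)|
    · rw [hval j a ha (by linarith) hj hall, hval j b (by linarith) hb hj hall, dist_self]
      exact hΦm a b hab
    · push Not at hall
      obtain ⟨i, l, hl, n, hn⟩ := hall
      have hbd : Bd η (x i) l := by
        refine ⟨?_, n, hn⟩
        rcases hl with rfl | rfl
        · exact hj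
        · push_cast; linarith
      have hbi := hβ i l hbd
      have hone : b - a ≤ T b i - T a i := by
        have m1 := clip_mono (show a - (β i - 1) ≤ b - (β i - 1) by linarith)
        have m2 := clip_mono (show a - β i ≤ b - β i by linarith)
        show b - a ≤ clip (b - (β i - 1)) + clip (b - β i) -
          (clip (a - (β i - 1)) + clip (a - β i))
        rcases hl with rfl | rfl
        · rw [hbi] at m1 m2 ⊢
          rw [clip_of_mem (show 0 ≤ b - (l : ℝ) by linarith) (by linarith),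
            clip_of_mem (show 0 ≤ a - (l : ℝ) by linarith) (by linarith)]
          linarith
        · have hbi' : β i - 1 = j := by rw [hbi]; push_cast; ring
          rw [hbi'] at m1 ⊢
          rw [clip_of_mem (show 0 ≤ b - (j : ℝ) by linarith) (by linarith),
            clip_of_mem (show 0 ≤ a - (j : ℝ) by linarith) (by linarith)]
          linarith
      refine (hlip a b hab).trans ?_
      rw [hΦd]
      refine mul_le_mul_of_nonneg_left ?_ hC
      have h1 : T b i - T a i ≤ ∑ i, (T b i - T a i) :=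
        Finset.single_le_sum (f := fun i => T b i - T a i)
          (fun i _ => by have := hTm a b i hab; show 0 ≤ T b i - T a i; linarith) (Finset.mem_univ i)
      have h2 := clip_mono (show a - η ≤ b - η by linarith)
      linarith
  have hcells : ∀ (n : ℕ) a b, ((⌈η⌉ : ℤ) : ℝ) ≤ a → a ≤ b → b ≤ (⌈η⌉ : ℤ) + n →
      dist (k a) (k b) ≤ Φ b - Φ a := by
    intro n
    induction n with
    | zero =>
      intro a b ha hab hb
      have : a = b := le_antisymm hab (by push_cast at hb; linarith)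
      rw [this, dist_self]
      exact hΦm b b le_rfl
    | succ n ih =>
      intro a b ha hab hb
      have hcn : ∀ a b, ((⌈η⌉ : ℤ) : ℝ) + n ≤ a → a ≤ b → b ≤ (⌈η⌉ : ℤ) + n + 1 →
          dist (k a) (k b) ≤ Φ b - Φ a := by
        intro a b h1 h2 h3
        refine hcell (⌈η⌉ + n) ?_ a b ?_ h2 ?_
        · have := Int.le_ceil η
          have hn : (0 : ℝ) ≤ n := Nat.cast_nonneg n
          push_cast
          linarith
        · push_cast; exact h1
        · push_cast; exact h3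
      push_cast at hb
      by_cases h1 : b ≤ (⌈η⌉ : ℤ) + n
      · exact ih a b ha hab h1
      · have h1' := (not_le.1 h1).le
        by_cases h2 : (⌈η⌉ : ℤ) + n ≤ a
        · exact hcn a b h2 hab (by linarith)
        · have h2' := (not_le.1 h2).le
          exact htr _ _ _ (ih a _ ha h2' le_rfl) (hcn _ b le_rfl h1' (by linarith))
  have hright : ∀ a b, ((⌈η⌉ : ℤ) : ℝ) ≤ a → a ≤ b → dist (k a) (k b) ≤ Φ b - Φ a := by
    intro a b ha hab
    refine hcells ⌈b - (⌈η⌉ : ℤ)⌉₊ a b ha hab ?_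
    have := Nat.le_ceil (b - ((⌈η⌉ : ℤ) : ℝ))
    linarith
  have hceil1 := Int.le_ceil η
  have hceil2 := (Int.ceil_lt_add_one η).le
  have hmid : ∀ a b, η ≤ a → a ≤ b → dist (k a) (k b) ≤ Φ b - Φ a := by
    intro a b ha hab
    by_cases h1 : b ≤ (⌈η⌉ : ℤ)
    · exact hcell0 a b ha hab (by linarith)
    · have h1' := (not_le.1 h1).le
      by_cases h2 : ((⌈η⌉ : ℤ) : ℝ) ≤ a
      · exact hright a b h2 hab
      · have h2' := (not_le.1 h2).le
        exact htr _ _ _ (hcell0 a _ ha h2' (by linarith)) (hright _ b le_rfl h1')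
  refine var_le_of_control k Φ _ ?_ ?_ ?_
  · intro a b hab
    by_cases h1 : b ≤ η
    · rw [h0 a (by linarith), h0 b h1, dist_self]
      exact hΦm a b hab
    · have h1' := (not_le.1 h1).le
      by_cases h2 : η ≤ a
      · exact hmid a b h2 hab
      · have h2' := (not_le.1 h2).le
        refine htr _ η _ ?_ (hmid η b le_rfl h1')
        rw [h0 a h2', h0 η le_rfl, dist_self]
        exact hΦm a η h2'
  · intro a
    refine mul_nonneg hC (add_nonneg (clip_nonneg _) (Finset.sum_nonneg fun i _ => ?_))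
    exact add_nonneg (clip_nonneg _) (clip_nonneg _)
  · intro a
    show C * (clip (a - η) + ∑ i, T a i) ≤ (2 * m + 1) * C
    rw [mul_comm ((2 : ℝ) * m + 1) C]
    refine mul_le_mul_of_nonneg_left ?_ hC
    have h1 := clip_le_one (a - η)
    have h2 : ∑ i, T a i ≤ ∑ _i : Fin m, (2 : ℝ) := by
      refine Finset.sum_le_sum fun i _ => ?_
      have h3 := clip_le_one (a - (β i - 1))
      have h4 := clip_le_one (a - β i)
      show clip (a - (β i - 1)) + clip (a - β i) ≤ 2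
      linarith
    rw [Finset.sum_const, Finset.card_univ, Fintype.card_fin, nsmul_eq_mul] at h2
    linarith

end

end Pool.Agent.H474R3.LN.SwVar
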